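import Mathlib
import Pool.Agent.Helper948.NfaDefs
import Pool.Agent.Helper948.Nfa
import Pool.Agent.Helper178.UnaryCore
import Pool.Agent.Helper178.UnaryFinal

set_option autoImplicit false

open Filter Topology Asymptotics
open Pool.Agent.Helper948.Nfa

namespace Pool.Agent.Results.MP_91c91a_lc

theorem FullOrder.isBigO_upper (k : ℕ) :
    (fun m : ℕ => (g k m : ℝ)) =O[atTop] (fun m : ℕ => (m : ℝ) ^ 2 / Real.log m) := by
  apply IsBigO.of_bound (9 * k * (k + 2))
  filter_upwards [eventually_ge_atTop 2] with m hm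
  have h1 := g_upper k m hm
  have hlog : 0 ≤ Real.log m := Real.log_natCast_nonneg m
  rw [Real.norm_of_nonneg (Nat.cast_nonneg _), Real.norm_of_nonneg (by positivity)]
  rw [mul_div_assoc] at h1
  exact h1

/-- The worst-case transition complexity `g k m` of inverse morphism is an attained maximum, and
its order of growth is determined for every fixed `k ≥ 1`: it is of exact order `m` for `k = 1`
(more precisely `m ≤ g 1 m ≤ 2 m + 2` for all `m`) and of exact order `m ^ 2 / log m` for every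
`k ≥ 2`. In particular `g k m / m ^ 2` tends to zero for every fixed `k`, so that there is no fixed
`k` with `g k m = Ω (m ^ 2)`. -/
theorem FullOrder.result :
    (∀ k m : ℕ, IsGreatest (gValues k m) (g k m)) ∧
    (∀ m : ℕ, m ≤ g 1 m ∧ g 1 m ≤ 2 * m + 2) ∧
    ((fun m : ℕ => (g 1 m : ℝ)) =Θ[atTop] (fun m : ℕ => (m : ℝ))) ∧
    (∀ k : ℕ, 2 ≤ k →
      (fun m : ℕ => (g k m : ℝ)) =Θ[atTop] (fun m : ℕ => (m : ℝ) ^ 2 / Real.log m)) ∧
    (∀ k : ℕ, Tendsto (fun m : ℕ => (g k m : ℝ) / (m : ℝ) ^ 2) atTop (𝓝 0)) ∧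
    (∀ k : ℕ, ¬ ((fun m : ℕ => (m : ℝ) ^ 2) =O[atTop] (fun m : ℕ => (g k m : ℝ)))) := by
  have hlim : ∀ k : ℕ, Tendsto (fun m : ℕ => (g k m : ℝ) / (m : ℝ) ^ 2) atTop (𝓝 0) := by
    intro k
    have hlog : Tendsto (fun m : ℕ => Real.log (m : ℝ)) atTop atTop :=
      Real.tendsto_log_atTop.comp tendsto_natCast_atTop_atTop
    have h2 : Tendsto (fun m : ℕ => (9 * (k : ℝ) * (k + 2)) / Real.log m) atTop (𝓝 0) :=
      hlog.const_div_atTop _
    refine tendsto_of_tendsto_of_tendsto_of_le_of_le' tendsto_const_nhds h2 ?_ ?_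
    · filter_upwards with m
      positivity
    · filter_upwards [eventually_ge_atTop 2] with m hm
      have h1 := g_upper k m hm
      have hm' : (0 : ℝ) < m := by
        have : 0 < m := by omega
        exact_mod_cast this
      rw [div_le_iff₀ (by positivity)]
      refine h1.trans (le_of_eq ?_)
      ring
  refine ⟨?_, ?_, ?_, ?_, hlim, ?_⟩
  · intro k m
    exact ⟨Nat.sSup_mem (gValues_nonempty k m) (g_bdd k m), fun t ht => le_csSup (g_bdd k m) ht⟩
  · intro m
    exact ⟨Pool.Agent.Helper178.UnaryTC.le_g_one m, Pool.Agent.Helper178.UnaryTC.g_one_le m⟩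
  · constructor
    · apply IsBigO.of_bound 4
      filter_upwards [eventually_ge_atTop 1] with m hm
      rw [Real.norm_of_nonneg (Nat.cast_nonneg _), Real.norm_of_nonneg (Nat.cast_nonneg _)]
      have h1 := Pool.Agent.Helper178.UnaryTC.g_one_le m
      have h2 : g 1 m ≤ 4 * m := by omega
      exact_mod_cast h2
    · apply IsBigO.of_bound 1
      filter_upwards with m
      rw [Real.norm_of_nonneg (Nat.cast_nonneg _), Real.norm_of_nonneg (Nat.cast_nonneg _), one_mul]
      exact_mod_cast Pool.Agent.Helper178.UnaryTC.le_g_one m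
  · intro k hk
    refine ⟨FullOrder.isBigO_upper k, ?_⟩
    obtain ⟨c, hc, m₀, h⟩ := g_lower k hk
    apply IsBigO.of_bound (1 / c)
    filter_upwards [eventually_ge_atTop m₀] with m hm
    have h1 := h m hm
    have hlog : 0 ≤ Real.log m := Real.log_natCast_nonneg m
    rw [Real.norm_of_nonneg (Nat.cast_nonneg _), Real.norm_of_nonneg (by positivity)]
    rw [one_div, inv_mul_eq_div, le_div_iff₀ hc, mul_comm]
    exact h1
  · intro k hO
    obtain ⟨C, hC⟩ := hO.bound
    have hpos : (0 : ℝ) < 1 / (2 * (|C| + 1)) := by positivity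
    have h1 := (hlim k).eventually (gt_mem_nhds hpos)
    obtain ⟨m, ⟨h2, h3⟩, hm⟩ := ((hC.and h1).and (eventually_ge_atTop 1)).exists
    have hm' : (0 : ℝ) < (m : ℝ) ^ 2 := by
      have : (0 : ℝ) < m := by exact_mod_cast hm
      positivity
    rw [Real.norm_of_nonneg hm'.le, Real.norm_of_nonneg (Nat.cast_nonneg _)] at h2
    rw [div_lt_iff₀ hm'] at h3
    have h4 : (0 : ℝ) ≤ (g k m : ℝ) := Nat.cast_nonneg _
    have h5 : C * (g k m : ℝ) ≤ (|C| + 1) * (g k m : ℝ) :=
      mul_le_mul_of_nonneg_right (by linarith [le_abs_self C]) h4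
    have hC1 : (0 : ℝ) < |C| + 1 := by positivity
    have h6 : (|C| + 1) * (g k m : ℝ) < (|C| + 1) * (1 / (2 * (|C| + 1)) * (m : ℝ) ^ 2) :=
      mul_lt_mul_of_pos_left h3 hC1
    have h7 : (|C| + 1) * (1 / (2 * (|C| + 1)) * (m : ℝ) ^ 2) = (m : ℝ) ^ 2 / 2 := by
      field_simp
    rw [h7] at h6
    linarith

end Pool.Agent.Results.MP_91c91a_lc
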