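import Mathlib
import Pool.Agent.Helper948.NfaDefs
import Pool.Agent.Helper948.Nfa

set_option autoImplicit false

open Filter Topology Asymptotics
open Pool.Agent.Helper948.Nfa

namespace Pool.Agent.Results.MP_91c91a_lc

theorem isBigO_upper (k : ℕ) :
    (fun m : ℕ => (g k m : ℝ)) =O[atTop] (fun m : ℕ => (m : ℝ) ^ 2 / Real.log m) := by
  apply IsBigO.of_bound (9 * k * (k + 2))
  filter_upwards [eventually_ge_atTop 2] with m hm
  have h1 := g_upper k m hm
  have hlog : 0 ≤ Real.log m := Real.log_natCast_nonneg m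
  rw [Real.norm_of_nonneg (Nat.cast_nonneg _), Real.norm_of_nonneg (by positivity)]
  rw [mul_div_assoc] at h1
  exact h1

/-- The worst-case transition complexity `g k m` of inverse morphism is an attained maximum. For
every `k ≥ 2` it is of exact order `m ^ 2 / log m`, and for every `k` it is `O(m ^ 2 / log m)`, so
that `g k m / m ^ 2` tends to zero: no fixed alphabet size gives a quadratic lower bound. -/
theorem InverseMorphismTC.result :
    (∀ k m : ℕ, IsGreatest (gValues k m) (g k m)) ∧
    (∀ k : ℕ, 2 ≤ k →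
      (fun m : ℕ => (g k m : ℝ)) =Θ[atTop] (fun m : ℕ => (m : ℝ) ^ 2 / Real.log m)) ∧
    (∀ k : ℕ,
      (fun m : ℕ => (g k m : ℝ)) =O[atTop] (fun m : ℕ => (m : ℝ) ^ 2 / Real.log m)) ∧
    (∀ k : ℕ, Tendsto (fun m : ℕ => (g k m : ℝ) / (m : ℝ) ^ 2) atTop (𝓝 0)) := by
  refine ⟨?_, ?_, isBigO_upper, ?_⟩
  · intro k m
    exact ⟨Nat.sSup_mem (gValues_nonempty k m) (g_bdd k m), fun t ht => le_csSup (g_bdd k m) ht⟩
  · intro k hk
    refine ⟨isBigO_upper k, ?_⟩
    obtain ⟨c, hc, m₀, h⟩ := g_lower k hk
    apply IsBigO.of_bound (1 / c)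
    filter_upwards [eventually_ge_atTop m₀] with m hm
    have h1 := h m hm
    have hlog : 0 ≤ Real.log m := Real.log_natCast_nonneg m
    rw [Real.norm_of_nonneg (Nat.cast_nonneg _), Real.norm_of_nonneg (by positivity)]
    rw [one_div, inv_mul_eq_div, le_div_iff₀ hc, mul_comm]
    exact h1
  · intro k
    have hlog : Tendsto (fun m : ℕ => Real.log (m : ℝ)) atTop atTop :=
      Real.tendsto_log_atTop.comp tendsto_natCast_atTop_atTop
    have h2 : Tendsto (fun m : ℕ => (9 * (k : ℝ) * (k + 2)) / Real.log m) atTop (𝓝 0) :=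
      hlog.const_div_atTop _
    refine tendsto_of_tendsto_of_tendsto_of_le_of_le' tendsto_const_nhds h2 ?_ ?_
    · filter_upwards with m
      positivity
    · filter_upwards [eventually_ge_atTop 2] with m hm
      have h1 := g_upper k m hm
      have hm' : (0 : ℝ) < m := by
        have : 0 < m := by omega
        exact_mod_cast this
      rw [div_le_iff₀ (by positivity)]
      refine h1.trans (le_of_eq ?_)
      ring

end Pool.Agent.Results.MP_91c91a_lc
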